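import Mathlib

namespace Pool.Agent.Results.MP_2ac10d_nt.HalfOfThePrimes

/-- `S`: the integers `n > 1` with `2 ^ n ≡ 3 (mod n)`. -/
def S : Set ℕ := {n | 1 < n ∧ 2 ^ n ≡ 3 [MOD n]}

/-- The set of primes dividing no element of `S`. -/
def PP : Set ℕ := {p | p.Prime ∧ ∀ n ∈ S, ¬ p ∣ n}

theorem not_two_dvd {n : ℕ} (hn : n ∈ S) : ¬ 2 ∣ n := by
  intro h
  have h1 : 2 ^ n ≡ 3 [MOD 2] := hn.2.of_dvd h
  have h2 : 2 ∣ 2 ^ n := dvd_pow_self 2 (by have := hn.1; omega)
  unfold Nat.ModEq at h1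
  omega

theorem not_three_dvd {n : ℕ} (hn : n ∈ S) : ¬ 3 ∣ n := by
  intro h
  have h1 : 2 ^ n ≡ 3 [MOD 3] := hn.2.of_dvd h
  have h2 : 3 ∣ 2 ^ n := (Nat.modEq_zero_iff_dvd).1 (h1.trans (by decide))
  have := Nat.Prime.dvd_of_dvd_pow Nat.prime_three h2
  omega

theorem isSquare_six {n p : ℕ} (hn : n ∈ S) (hp : p ∣ n) : IsSquare (6 : ZMod p) := by
  obtain ⟨m, hm⟩ : ∃ m, n = 2 * m + 1 := ⟨n / 2, by have := not_two_dvd hn; omega⟩
  have h1 : 2 ^ n ≡ 3 [MOD p] := hn.2.of_dvd hp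
  have h2 : (2 : ZMod p) ^ n = 3 := by
    have := (ZMod.natCast_eq_natCast_iff _ _ p).2 h1
    push_cast at this
    exact this
  refine ⟨2 * 2 ^ m, ?_⟩
  rw [hm] at h2
  calc (6 : ZMod p) = 2 * 3 := by norm_num
    _ = 2 * 2 ^ (2 * m + 1) := by rw [h2]
    _ = 2 * 2 ^ m * (2 * 2 ^ m) := by ring

theorem sq_mod_three {p : ℕ} (h : p % 3 = 1) : IsSquare (p : ZMod 3) := by
  have : (p : ZMod 3) = ((p % 3 : ℕ) : ZMod 3) := (ZMod.natCast_mod p 3).symm
  rw [this, h]
  exact ⟨1, by norm_num⟩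

theorem not_sq_mod_three {p : ℕ} (h : p % 3 = 2) : ¬ IsSquare (p : ZMod 3) := by
  have : (p : ZMod 3) = ((p % 3 : ℕ) : ZMod 3) := (ZMod.natCast_mod p 3).symm
  rw [this, h]
  rintro ⟨a, ha⟩
  revert a
  decide

theorem mem_of_mod {p : ℕ} (hp : p.Prime) (h : p % 24 = 7 ∨ p % 24 = 11 ∨ p % 24 = 13 ∨
    p % 24 = 17) : p ∈ PP := by
  have : Fact p.Prime := ⟨hp⟩
  have : Fact (Nat.Prime 3) := ⟨Nat.prime_three⟩
  refine ⟨hp, fun n hn hpn => ?_⟩
  have h6 := isSquare_six hn hpn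
  have hp2 : p ≠ 2 := by rintro rfl; omega
  have hp3 : p ≠ 3 := by rintro rfl; omega
  have h20 : (2 : ZMod p) ≠ 0 := by
    intro h0
    have : ((2 : ℕ) : ZMod p) = 0 := by exact_mod_cast h0
    rw [ZMod.natCast_eq_zero_iff] at this
    have h2' := (Nat.prime_dvd_prime_iff_eq hp Nat.prime_two).1 this
    exact hp2 h2'
  have h30 : (3 : ZMod p) ≠ 0 := by
    intro h0
    have : ((3 : ℕ) : ZMod p) = 0 := by exact_mod_cast h0
    rw [ZMod.natCast_eq_zero_iff] at this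
    have h2' := (Nat.prime_dvd_prime_iff_eq hp Nat.prime_three).1 this
    exact hp3 h2'
  have e3 : (3 : ZMod p) = 6 / 2 := by
    rw [eq_div_iff h20]
    norm_num
  have e2 : (2 : ZMod p) = 6 / 3 := by
    rw [eq_div_iff h30]
    norm_num
  have two := ZMod.exists_sq_eq_two_iff hp2
  rcases h with h | h | h | h
  · have h2 : IsSquare (2 : ZMod p) := two.2 (by omega)
    have h3 : IsSquare (3 : ZMod p) := by rw [e3]; exact h6.div h2
    have := (ZMod.exists_sq_eq_prime_iff_of_mod_four_eq_three (p := p) (q := 3) (by omega)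
      (by norm_num) hp3).1 (by exact_mod_cast h3)
    exact this (sq_mod_three (by omega))
  · have h3 : IsSquare (3 : ZMod p) := by
      have := (ZMod.exists_sq_eq_prime_iff_of_mod_four_eq_three (p := p) (q := 3) (by omega)
        (by norm_num) hp3).2 (not_sq_mod_three (by omega))
      exact_mod_cast this
    have h2 : IsSquare (2 : ZMod p) := by rw [e2]; exact h6.div h3
    have := two.1 h2
    omega
  · have h3 : IsSquare (3 : ZMod p) := by
      have := (ZMod.exists_sq_eq_prime_iff_of_mod_four_eq_one (p := p) (q := 3) (by omega)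
        (by norm_num)).2 (sq_mod_three (by omega))
      exact_mod_cast this
    have h2 : IsSquare (2 : ZMod p) := by rw [e2]; exact h6.div h3
    have := two.1 h2
    omega
  · have h2 : IsSquare (2 : ZMod p) := two.2 (by omega)
    have h3 : IsSquare (3 : ZMod p) := by rw [e3]; exact h6.div h2
    have := (ZMod.exists_sq_eq_prime_iff_of_mod_four_eq_one (p := p) (q := 3) (by omega)
      (by norm_num)).1 (by exact_mod_cast h3)
    exact not_sq_mod_three (by omega) this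

/-- Every prime `p ≡ 7, 11, 13, 17 (mod 24)` divides no `n > 1` with `2 ^ n ≡ 3 (mod n)`. -/
theorem result (p : ℕ) (hp : p.Prime)
    (h : p % 24 = 7 ∨ p % 24 = 11 ∨ p % 24 = 13 ∨ p % 24 = 17) : p ∈ PP :=
  mem_of_mod hp h

end Pool.Agent.Results.MP_2ac10d_nt.HalfOfThePrimes
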