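import Mathlib

namespace Pool.Agent.Results.MP_2ac10d_nt.PowerCriterion

/-- `S`: the integers `n > 1` with `2 ^ n ≡ 3 (mod n)`. -/
def S : Set ℕ := {n | 1 < n ∧ 2 ^ n ≡ 3 [MOD n]}

/-- The set of primes dividing no element of `S`. -/
def PP : Set ℕ := {p | p.Prime ∧ ∀ n ∈ S, ¬ p ∣ n}

theorem not_two_dvd {n : ℕ} (hn : n ∈ S) : ¬ 2 ∣ n := by
  intro h
  have h1 : 2 ^ n ≡ 3 [MOD 2] := hn.2.of_dvd h
  have h2 : 2 ∣ 2 ^ n := dvd_pow_self 2 (by have := hn.1; omega)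
  unfold Nat.ModEq at h1
  omega

theorem mem_of_power {p q : ℕ} (hp : p.Prime) (hq : q ∈ PP) (ha : ∃ a : ZMod p, a ^ q = 3)
    (hb : ¬ ∃ b : ZMod p, b ^ q = 2) : p ∈ PP := by
  have : Fact p.Prime := ⟨hp⟩
  refine ⟨hp, fun n hn hpn => ?_⟩
  have hp2 : p ≠ 2 := by
    rintro rfl
    exact not_two_dvd hn hpn
  have h20 : (2 : ZMod p) ≠ 0 := by
    intro h0
    have : ((2 : ℕ) : ZMod p) = 0 := by exact_mod_cast h0
    rw [ZMod.natCast_eq_zero_iff] at this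
    exact hp2 ((Nat.prime_dvd_prime_iff_eq hp Nat.prime_two).1 this)
  have h1 : 2 ^ n ≡ 3 [MOD p] := hn.2.of_dvd hpn
  have h2 : (2 : ZMod p) ^ n = 3 := by
    have := (ZMod.natCast_eq_natCast_iff _ _ p).2 h1
    push_cast at this
    exact this
  obtain ⟨a, ha⟩ := ha
  have hcop : Nat.Coprime n q := ((Nat.Prime.coprime_iff_not_dvd hq.1).2 (hq.2 n hn)).symm
  obtain ⟨u, hu⟩ := Nat.exists_mul_mod_eq_one_of_coprime hcop hq.1.one_lt
  have hnu : n * u = q * (n * u / q) + 1 := by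
    have := Nat.div_add_mod (n * u) q
    omega
  apply hb
  refine ⟨a ^ u / 2 ^ (n * u / q), ?_⟩
  rw [div_pow, div_eq_iff (pow_ne_zero _ (pow_ne_zero _ h20))]
  calc (a ^ u) ^ q = (a ^ q) ^ u := by rw [← pow_mul, ← pow_mul, mul_comm]
    _ = ((2 : ZMod p) ^ n) ^ u := by rw [ha, h2]
    _ = 2 ^ (n * u) := by rw [← pow_mul]
    _ = 2 ^ (q * (n * u / q) + 1) := by rw [← hnu]
    _ = 2 * (2 ^ (n * u / q)) ^ q := by
      rw [pow_succ, mul_comm q, pow_mul]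
      ring

/-- If `q` divides no element of `S`, and `3` is a `q`-th power modulo the prime `p` while `2` is
not, then `p` divides no element of `S`. -/
theorem result (p q : ℕ) (hp : p.Prime) (hq : q ∈ PP) (h3 : ∃ a : ZMod p, a ^ q = 3)
    (h2 : ¬ ∃ b : ZMod p, b ^ q = 2) : p ∈ PP :=
  mem_of_power hp hq h3 h2

end Pool.Agent.Results.MP_2ac10d_nt.PowerCriterion
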